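import Pool.Agent.Helper42.PP.Goals2
import Pool.Agent.Helper42.RD.VAL
import Pool.Agent.Helper90.RP.SUB
import Pool.Agent.Helper96.RL.LEXCore
import Pool.Agent.Helper17.RL.MCH

/-!
# Packet PP-B-PSLG (MP_fc6b1e_nt): the Selmer group is stable under the generator of the Galois
group, and depends only on the local class
-/

set_option autoImplicit false

namespace Pool.Agent.Helper8.PP

open NumberField Polynomial Module IsDedekindDomain Pool.Agent.Helper51.SigLeo
open Pool.Agent.Helper51.RP Pool.Agent.Helper42.RD Pool.Agent.Helper42.PP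

/-- `P(δ)` commutes with `δ`. -/
theorem pol_act {p : ℕ} {K M : Type} [Field K] [Field M] [Algebra K M] (P : (ZMod p)[X])
    (δ : M ≃ₐ[K] M) (x : Mˣ) : pol P δ (act δ x) = act δ (pol P δ x) := by
  unfold pol
  rw [MonoidHom.finsetProd_apply, MonoidHom.finsetProd_apply, map_prod]
  refine Finset.prod_congr rfl fun j _ => ?_
  rw [MonoidHom.pow_apply, MonoidHom.pow_apply, map_pow]
  congr 1
  apply Units.ext
  show (δ ^ j : M ≃ₐ[K] M) (δ (x : M)) = δ ((δ ^ j : M ≃ₐ[K] M) (x : M))
  rw [← AlgEquiv.mul_apply, ← AlgEquiv.mul_apply, ← pow_succ, ← pow_succ']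

section loc

variable {p : ℕ} {M : Type} [Field M] [NumberField M] (w : HeightOneSpectrum (𝓞 M))

/-- A local `p`-th power has valuation divisible by `p`. -/
theorem dvd_of_locPow (hp : p ≠ 0) {z : M} (h : LocPow p w z) : (p : ℤ) ∣ ordv w z := by
  have hz := locPow_ne_zero w h
  obtain ⟨y, hy⟩ := h
  have h1 := val_eq_one_of_sub w hy
  have hy0 : y ≠ 0 := by
    rintro rfl
    rw [zero_pow hp, mul_zero, map_zero] at h1
    exact zero_ne_one h1
  have h2 : ordv w (z * y ^ p) = 0 := by unfold ordv; rw [h1, WithZero.log_one, neg_zero]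
  rw [ordv_mul w hz (pow_ne_zero _ hy0), ordv_pow] at h2
  exact ⟨- ordv w y, by linarith⟩

/-- The local condition depends only on the class of `a` modulo local `p`-th powers. -/
theorem locAt_of (hp : p ≠ 0) {a b x : M} (ha : a ≠ 0) (hb : b ≠ 0) (h : LocPow p w (a / b))
    (hx : LocAt p w a x) : LocAt p w b x := by
  have h1 : (p : ℤ) ∣ ordv w a - ordv w b := by
    have h2 := dvd_of_locPow w hp h
    rw [div_eq_mul_inv, ordv_mul w ha (inv_ne_zero hb), ordv_inv w hb] at h2
    rwa [sub_eq_add_neg]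
  refine ⟨fun hd => hx.1 ?_, fun hd => ?_⟩
  · have h3 := dvd_add h1 hd
    rwa [sub_add_cancel] at h3
  · obtain ⟨i, hi⟩ := hx.2 (fun h4 => hd (by
      have h5 := dvd_sub h4 h1
      rwa [sub_sub_cancel] at h5))
    refine ⟨i, ?_⟩
    have h6 := locPow_mul w hi (locPow_pow w (locPow_inv w h) i)
    have e : x * ((-1) ^ (p - 1) * a) ^ i * (a / b)⁻¹ ^ i = x * ((-1) ^ (p - 1) * b) ^ i := by
      rw [mul_assoc, ← mul_pow]
      congr 2
      field_simp
    rwa [e] at h6

end loc

/-- The sign. -/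
theorem neg_one_pow_pow {p n : ℕ} (hp : p.Prime) (hn : n.Coprime p) {M : Type} [Field M] :
    ((-1 : M) ^ (p - 1)) = ((-1 : M) ^ (p - 1)) ^ n := by
  rcases hp.eq_two_or_odd' with h2 | h2
  · subst h2
    have hodd : Odd n := by
      rw [Nat.coprime_two_right] at hn
      exact hn
    have e : (2 - 1 : ℕ) = 1 := rfl
    rw [e, pow_one, hodd.neg_one_pow]
  · have h3 : Even (p - 1) := by
      obtain ⟨k, hk⟩ := h2
      exact ⟨k, by omega⟩
    rw [h3.neg_one_pow, one_pow]

theorem p_slg : P_SLG := by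
  intro p hp k _ _ _ K M K₁ M₁ _ _ _ _ _ _ _ _ _ _ _ _ _ ε δ P hSit L T S a ha
  have hpp : p.Prime := Fact.out
  have hp0 : p ≠ 0 := hpp.ne_zero
  have := hSit.st1
  have := hSit.st2
  have := hSit.gM
  have := hSit.gK
  have := hSit.gMK
  constructor
  · intro x hx
    refine ⟨?_, ?_, ?_⟩
    · obtain ⟨y, hy⟩ := hx.pol
      exact ⟨act δ y, by rw [pol_act, hy, map_pow]⟩
    · -- the extension of `δ`
      set g : M₁ ≃ₐ[K] M₁ := AlgEquiv.liftNormal δ M₁ with hg
      have hgM : ∀ y : M, g (algebraMap M M₁ y) = algebraMap M M₁ (δ y) := fun y =>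
        AlgEquiv.liftNormal_commutes δ M₁ y
      set σ : K₁ ≃ₐ[K] K₁ := AlgEquiv.restrictNormal g K₁ with hσ
      have hgK : ∀ y : K₁, algebraMap K₁ M₁ (σ y) = g (algebraMap K₁ M₁ y) := fun y =>
        AlgEquiv.restrictNormal_commutes g K₁ y
      obtain ⟨n, c, hn, hc⟩ := ha σ
      have hcop : n.Coprime p := by
        rw [Nat.coprime_comm, hpp.coprime_iff_not_dvd]
        rintro ⟨m, rfl⟩
        rw [pow_mul, hSit.tow.prim.pow_eq_one, one_pow] at hn
        have h1 : ε = 1 := by
          apply σ.injective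
          rw [hn, map_one]
        have h2 := hSit.tow.prim
        rw [h1] at h2
        exact hpp.one_lt.ne' (h2.unique IsPrimitiveRoot.one)
      have hc0 : c ≠ 0 := by
        rintro rfl
        rw [zero_pow hp0, mul_zero] at hc
        exact a.ne_zero ((map_eq_zero σ).1 hc)
      have hA0 : algebraMap K₁ M₁ (a : K₁) ≠ 0 := (_root_.map_ne_zero _).2 a.ne_zero
      have hC0 : algebraMap K₁ M₁ c ≠ 0 := (_root_.map_ne_zero _).2 hc0
      have hgA : g (algebraMap K₁ M₁ (a : K₁)) =
          algebraMap K₁ M₁ (a : K₁) ^ n * algebraMap K₁ M₁ c ^ p := by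
        rw [← hgK, hc, map_mul, map_pow, map_pow]
      intro W
      obtain ⟨W', -, hW'⟩ := Pool.Agent.Helper90.RP.exists_pull (K := K) g W
      have hloc := hx.loc W'
      have hxx : algebraMap M M₁ ((act δ x : Mˣ) : M) = g (algebraMap M M₁ (x : M)) := (hgM _).symm
      rw [hxx]
      have hordA : ordv W' (algebraMap K₁ M₁ (a : K₁)) =
          n * ordv W (algebraMap K₁ M₁ (a : K₁)) + p * ordv W (algebraMap K₁ M₁ c) := by
        rw [← ordv_conj g hW', hgA, ordv_mul W (pow_ne_zero _ hA0) (pow_ne_zero _ hC0), ordv_pow,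
          ordv_pow]
      refine ⟨fun hd => ?_, fun hd => ?_⟩
      · rw [ordv_conj g hW']
        apply hloc.1
        rw [hordA]
        exact dvd_add (hd.mul_left _) (dvd_mul_right _ _)
      · have hd' : ¬ (p : ℤ) ∣ ordv W' (algebraMap K₁ M₁ (a : K₁)) := by
          intro h
          rw [hordA] at h
          have h1 := (Int.dvd_add_left (dvd_mul_right (p : ℤ) _)).1 h
          have h2 : IsCoprime (p : ℤ) (n : ℤ) := by
            rw [Int.isCoprime_iff_gcd_eq_one]
            exact_mod_cast (Nat.coprime_comm.1 hcop)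
          exact hd (h2.dvd_of_dvd_mul_left h1)
        obtain ⟨i, hi⟩ := hloc.2 hd'
        have h3 := (locPow_conj g hW' _).2 hi
        refine ⟨n * i, ?_⟩
        rw [map_mul, map_pow, map_mul, hgA] at h3
        have e : g (algebraMap M M₁ (x : M)) *
            (g ((-1) ^ (p - 1)) *
              (algebraMap K₁ M₁ (a : K₁) ^ n * algebraMap K₁ M₁ c ^ p)) ^ i =
            g (algebraMap M M₁ (x : M)) *
              ((-1) ^ (p - 1) * algebraMap K₁ M₁ (a : K₁)) ^ (n * i) *
              (algebraMap K₁ M₁ c ^ i) ^ p := by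
          have e1 : g ((-1) ^ (p - 1)) = ((-1) ^ (p - 1) : M₁) ^ n := by
            rw [map_pow, map_neg, map_one]
            exact neg_one_pow_pow hpp hcop
          rw [e1, pow_mul, mul_pow (_ : M₁) _ n]
          ring
        rw [e] at h3
        exact (locPow_mul_pth W (pow_ne_zero _ hC0)).1 h3
    · exact Pool.Agent.Helper90.RP.loc_delta L δ hx.sig
  · intro aτ hS W hW x
    obtain ⟨y, hy⟩ := hS
    obtain ⟨v, hv, hWv⟩ := hW
    obtain ⟨Q, hQ⟩ := Pool.Agent.Helper95.RL.exists_below (M := K₁) W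
    have hQv : Above Q v := Pool.Agent.Helper96.RL.above_mid hQ hWv
    have h1 : LocPow p Q (((a / aτ : K₁ˣ) : K₁)) := ⟨(y : K₁), (hy Q ⟨v, hv, hQv⟩).1⟩
    have h2 := Pool.Agent.Helper17.RL.locPow_up p hQ _ h1
    rw [Units.val_div_eq_div_val, map_div₀] at h2
    have hA0 : algebraMap K₁ M₁ (a : K₁) ≠ 0 := (_root_.map_ne_zero _).2 a.ne_zero
    have hB0 : algebraMap K₁ M₁ (aτ : K₁) ≠ 0 := (_root_.map_ne_zero _).2 aτ.ne_zero
    refine ⟨locAt_of W hp0 hA0 hB0 h2, locAt_of W hp0 hB0 hA0 ?_⟩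
    have h3 := locPow_inv W h2
    rwa [inv_div] at h3

end Pool.Agent.Helper8.PP
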