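import Pool.Agent.Helper11.PP.GoalsD
import Pool.Agent.Helper86.LE.FCNT

/-!
# Project PP, packet DEXI: Kummer descent for an abstract field
-/

set_option autoImplicit false

namespace Pool.Agent.Helper8.PP

open NumberField Polynomial Module IsDedekindDomain Pool.Agent.Helper51.RP Pool.Agent.Helper42.RD
open Pool.Agent.Helper11.LE Pool.Agent.Helper11.PP
open Pool.Agent.Helper86.LE (omType_map adjoin_eq_top)

theorem d_exi : Pool.Agent.Helper11.PP.D_EXI := by
  intro p hpF K K₁ _ _ _ _ _ ε hC j hj a haom hnpw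
  have hp : p.Prime := hpF.out
  have hfd : FiniteDimensional K K₁ := Module.Finite.of_restrictScalars_finite ℚ K K₁
  let jA : K₁ →ₐ[K] AlgebraicClosure K := { j with commutes' := hj }
  have hjA : ∀ x, jA x = j x := fun _ => rfl
  set K₁' : IntermediateField K (AlgebraicClosure K) := IntermediateField.adjoin K {j ε} with hK₁'
  have hrange : jA.fieldRange = K₁' := by
    rw [AlgHom.fieldRange_eq_map, ← adjoin_eq_top hC, IntermediateField.adjoin_map,
      Set.image_singleton, hjA]
  let e : K₁ ≃ₐ[K] K₁' :=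
    (AlgEquiv.ofInjectiveField jA).trans (IntermediateField.equivOfEq hrange)
  have he : ∀ x, ((e x : K₁') : AlgebraicClosure K) = j x := fun _ => rfl
  have hεj : IsPrimitiveRoot (j ε) p := hC.prim.map_of_injective j.injective
  have hnp : ∀ y : K₁, y ^ p ≠ (a : K₁) := by
    intro y hy
    have hy0 : y ≠ 0 := by
      rintro rfl
      rw [zero_pow hp.ne_zero] at hy
      exact a.ne_zero hy.symm
    apply hnpw
    refine ⟨Units.mk0 y hy0, ?_⟩
    apply Units.ext
    rw [Units.val_pow_eq_pow_val, Units.val_mk0, hy]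
  obtain ⟨N, hNp, hNg, hNs⟩ := Pool.Agent.Helper32.RD.e_kum p K (j ε) hεj (e ε) (e (a : K₁))
    (he ε) (omType_map e haom) (by
      rintro ⟨y, hy⟩
      apply hnp (e.symm y)
      rw [← map_pow, hy, AlgEquiv.symm_apply_apply])
  refine ⟨N, ⟨hNp, hNg⟩, ?_⟩
  intro s hs g g1 g2
  have hsN : s ∈ N ⊔ K₁' := hNs s (by rw [he]; exact hs)
  have hle : (N ⊔ K₁').toSubalgebra ≤
      AlgHom.equalizer (g : AlgebraicClosure K →ₐ[K] AlgebraicClosure K) (AlgHom.id K _) := by
    have hfd' : FiniteDimensional K K₁' := e.toLinearEquiv.finiteDimensional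
    rw [IntermediateField.sup_toSubalgebra_of_right]
    refine sup_le ?_ ?_
    · intro y hy
      exact g1 y hy
    · intro y hy
      have h2 := g2 (e.symm ⟨y, hy⟩)
      rw [← he, AlgEquiv.apply_symm_apply] at h2
      exact h2
  exact hle hsN

end Pool.Agent.Helper8.PP
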